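import Pool.Agent.N874.QM.Stm
import Pool.Agent.N199.PP.GL
import Pool.Agent.N630.PP.GP

/-!
# The local condition over any field with a far point (helper42)

Project QM (helper874), part GLF: adapted from `Pool.Agent.N426.PM.GLR` (helper426).
-/

set_option autoImplicit false
set_option linter.all false

open Polynomial IsDedekindDomain WeierstrassCurve WeierstrassCurve.Affine
open Pool.Agent.TH115.GD Pool.Agent.N874.PP Pool.Agent.N199.PP
open scoped Classical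

namespace Pool.Agent.N42.QM

open Pool.Agent.N630.PP Pool.Agent.N874.QM

/-- a point over `ℝ` whose order does not divide four, for all decidability instances -/
theorem farr' (M : Type) [Field M] [Algebra M ℝ] (A B : M) (hD : 4 * A ^ 3 + 27 * B ^ 2 ≠ 0)
    (d : DecidableEq ℝ) : ∃ P : Pt (sW A B) ℝ, (2 : ℕ) • (2 : ℕ) • P ≠ 0 := by
  obtain rfl : d = fun a b => Classical.propDecidable (a = b) := Subsingleton.elim _ _
  have h6 : (6 : M) ≠ 0 := by
    intro h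
    have h1 := congrArg (algebraMap M ℝ) h
    rw [map_ofNat, map_zero] at h1
    norm_num at h1
  have hS := isS (Ω := ℝ) h6 hD
  obtain ⟨a, ha⟩ : ∃ a : ℝ, a = algebraMap M ℝ A := ⟨_, rfl⟩
  obtain ⟨b, hb⟩ : ∃ b : ℝ, b = algebraMap M ℝ B := ⟨_, rfl⟩
  rw [← ha, ← hb] at hS
  obtain ⟨N, hN⟩ : ∃ N : ℝ, N = 1 + |a| + |b| := ⟨_, rfl⟩
  have ha0 := abs_nonneg a
  have hb0 := abs_nonneg b
  have ha1 := neg_abs_le a
  have ha2 := le_abs_self a
  have hb1 := neg_abs_le b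
  have hN1 : 1 ≤ N := by linarith
  have haN : |a| ≤ N - 1 := by linarith
  have hbN : |b| ≤ N - 1 := by linarith
  have hpos : 0 < (4 * N) ^ 3 + a * (4 * N) + b := by
    have e1 : -(N - 1) * (4 * N) ≤ a * (4 * N) :=
      mul_le_mul_of_nonneg_right (by linarith) (by linarith)
    have e2 : N ^ 2 ≤ N ^ 3 := pow_le_pow_right₀ hN1 (by norm_num)
    nlinarith [sq_nonneg N]
  obtain ⟨y0, hy0⟩ : ∃ y0 : ℝ, y0 = Real.sqrt ((4 * N) ^ 3 + a * (4 * N) + b) := ⟨_, rfl⟩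
  have hy1 : y0 ^ 2 = (4 * N) ^ 3 + a * (4 * N) + b := by rw [hy0, Real.sq_sqrt hpos.le]
  have hy00 : y0 ≠ 0 := by
    rw [hy0]
    exact (Real.sqrt_pos.2 hpos).ne'
  obtain ⟨x0, hx0⟩ : ∃ x0 : ℝ, x0 = 4 * N := ⟨_, rfl⟩
  rw [← hx0] at hy1
  have hns : ((sW A B).baseChange ℝ).toAffine.Nonsingular x0 y0 := (hS.nonsingular).2 hy1
  refine ⟨Point.some x0 y0 hns, fun h4 => ?_⟩
  have h2P : (2 : ℕ) • (Point.some x0 y0 hns : Pt (sW A B) ℝ) ≠ 0 := by
    rw [two_nsmul]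
    intro h
    exact hy00 ((add_self_eq_zero_iff hS hns).1 h)
  rcases tor_cases h6 hD _ h4 with h | ⟨e, he, hT, hR⟩
  · exact h2P h
  obtain ⟨X, Y, hXY, h5, h7⟩ := gp1 M ℝ A B h6 hD _ h2P
  rw [hT] at h5
  have hXe : e = X := (Point.some.inj h5).1
  have h8 := h7 e hR
  rw [← hXe, sub_self] at h8
  have h9 : rr e (Point.some x0 y0 hns : Pt (sW A B) ℝ) = 0 :=
    pow_eq_zero_iff (two_ne_zero) |>.1 h8
  have h10 : (x0 - e) ^ 2 - (3 * e ^ 2 + algebraMap M ℝ A) = 0 := by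
    have h11 : ((x0 - e) ^ 2 - (3 * e ^ 2 + algebraMap M ℝ A)) / (2 * y0) = 0 := h9
    rcases div_eq_zero_iff.1 h11 with h | h
    · exact h
    · exact absurd h (mul_ne_zero hS.two hy00)
  rw [← ha] at h10
  have hR' : e ^ 3 + a * e + b = 0 := by
    rw [ha, hb]
    exact hR
  -- the root is small
  have heN : |e| ≤ N := by
    by_contra hcon
    push Not at hcon
    have e0 : 1 ≤ |e| := by linarith
    have e1 : |e| ^ 3 ≤ |a| * |e| + |b| := by
      have e2 : e ^ 3 = -(a * e + b) := by linarith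
      rw [← abs_pow, e2, abs_neg, ← abs_mul]
      exact abs_add_le _ _
    have e3 : |a| * |e| ≤ (N - 1) * |e| := mul_le_mul_of_nonneg_right haN (by linarith)
    have e4 : |e| ^ 3 = |e| ^ 2 * |e| := by ring
    have e5 : N * |e| ≤ |e| ^ 2 * |e| :=
      mul_le_mul_of_nonneg_right (by nlinarith) (by linarith)
    have e6 : |b| ≤ (N - 1) * 1 := by linarith
    nlinarith [hN]
  obtain ⟨e1, e2⟩ := abs_le.1 heN
  have h12 : (x0 - e) ^ 2 ≥ (3 * N) ^ 2 := by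
    apply pow_le_pow_left₀ (by linarith)
    rw [hx0]; linarith
  have h13 : e ^ 2 ≤ N ^ 2 := by
    rw [← sq_abs e]
    exact pow_le_pow_left₀ (abs_nonneg e) heN 2
  nlinarith

/-- (FARR) a point over `ℝ` whose order does not divide four -/
theorem farr : S_FARR := fun M _ _ A B hD => farr' M A B hD _

/-- (GLF) the local condition over any field with a point whose order does not divide four -/
theorem glf (h1 : S_GP1) (h2 : S_GP2) (h3 : S_GP3) (h4 : S_GP4) : S_GLF := by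
  intro M F _ _ _ A B h6' hD f hf hf2 β h hβ hh hfar hloc
  obtain ⟨ι, P₁, hP₁⟩ := hloc
  obtain ⟨Z, hZ3, hZ⟩ := exists_Z (Ω := Sep M) A B hD
  obtain ⟨ι', hι'⟩ : ∃ ι' : Sep M →ₐ[M] Sep F, ι' = ι.restrictScalars M := ⟨_, rfl⟩
  have hιx : ∀ x, ι x = ι' x := fun x => by rw [hι']; rfl
  simp only [hιx] at hP₁
  rw [← hι'] at hP₁
  have hres : ∀ τ : Sep F ≃ₐ[F] Sep F,
      ∃ σ : Sep M ≃ₐ[M] Sep M, ∀ x, τ (ι' x) = ι' (σ x) := fun τ => exists_res ι' τ
  -- the points of order two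
  have hT2 : ∀ σ : Sep M ≃ₐ[M] Sep M, (2 : ℕ) • act (sW A B) ι' (f σ) = 0 := by
    intro σ
    rw [← map_nsmul, hf2, map_zero]
  -- a point `P` with `4 P ≠ 0`
  obtain ⟨P, h4P, hTP⟩ : ∃ P : Pt (sW A B) (Sep F), (2 : ℕ) • (2 : ℕ) • P ≠ 0 ∧
      ∀ (τ : Sep F ≃ₐ[F] Sep F)
      (σ : Sep M ≃ₐ[M] Sep M), (∀ x, τ (ι' x) = ι' (σ x)) →
      act (sW A B) (rs M τ) P = P + act (sW A B) ι' (f σ) := by
    by_cases hc : (2 : ℕ) • (2 : ℕ) • P₁ = 0
    · obtain ⟨P0, hP0⟩ := hfar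
      refine ⟨P₁ + act (sW A B) (incl M F (Sep F)) P0, ?_, ?_⟩
      · rw [smul_add, smul_add, hc, zero_add, ← map_nsmul, ← map_nsmul]
        intro h0
        apply hP0
        apply act_inj (sW A B) (incl M F (Sep F))
        rw [h0, map_zero]
      · intro τ σ hτσ
        rw [map_add, rs_act_incl, hP₁ τ σ hτσ]
        abel
    · refine ⟨P₁, hc, fun τ σ hτσ => ?_⟩
      rw [hP₁ τ σ hτσ]
      abel
  have hPP : (2 : ℕ) • P ≠ 0 := fun h0 => h4P (by rw [h0, smul_zero])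
  -- the values of `h`
  have hval : ∀ t ∈ Z, eval (ι' t) ((h.map (algebraMap M F)).map
      (algebraMap F (Sep F))) = ι' (β t) ^ 2 := by
    intro t ht
    rw [Polynomial.map_map, ← IsScalarTower.algebraMap_eq, ← map_pow,
      ← hh t ((mem_Z hZ t).1 ht), eval_map_algebraMap]
    exact aeval_algHom_apply ι' t h
  right
  obtain ⟨x, y, hxy, h2P, hrr⟩ := h1 M _ _ _ h6' hD P hPP
  obtain ⟨Q, hQ⟩ := fixed_point (K := M) (F := F) (sW A B) ((2 : ℕ) • P) (by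
      intro τ
      obtain ⟨σ, hσ⟩ := hres τ
      rw [map_nsmul, hTP τ σ hσ, smul_add, hT2, add_zero])
  rcases Q with _ | ⟨x0, y0, hq⟩
  · exact absurd hQ.symm hPP
  have hy0 : y0 ≠ 0 := by
    rintro rfl
    apply h4P
    rw [← hQ, ← map_nsmul, two_smul_tor h6' hD hq, map_zero]
  rw [h2P] at hQ
  have hx0 : algebraMap F (Sep F) x0 = x := (Point.some.inj hQ).1
  obtain ⟨H, hH⟩ : ∃ H : F[X],
    H = (C x0 - X) * h.map (algebraMap M F) := ⟨_, rfl⟩
  suffices key : ∃ g : F[X], cub (algebraMap M F A)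
      (algebraMap M F B) ∣ H - g ^ 2 by
    rw [hH] at key
    exact ⟨x0, y0, hy0, eq_of_nonsing hq, key⟩
  refine interp hZ hZ3 ι' hres (fun t => rr (ι' t) P * ι' (β t)) ?_ H ?_
  · intro τ σ hτσ t ht
    have hR := (mem_Z hZ t).1 ht
    have hR' : Rt A B (σ t) := Rt_map (σ : Sep M →ₐ[M] Sep M) hR
    have hR'' : Rt A B (ι' (σ t)) := Rt_map ι' hR'
    have e1 : τ (rr (ι' t) P) = rr (ι' (σ t)) (P + act (sW A B) ι' (f σ)) := by
      rw [← hTP τ σ hτσ, ← hτσ]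
      exact ((h4 M _ _ _ _ (rs M τ) P (ι' t)).2).symm
    have e2 := h2 M _ _ _ h6' hD P _ hPP (hT2 σ) (ι' (σ t)) hR''
    have e3 : sg (act (sW A B) ι' (f σ)) (ι' (σ t)) =
        ι' (sg (f σ) (σ t)) := (h4 M _ _ _ _ ι' (f σ) (σ t)).1
    have e4 : τ (ι' (β t)) = ι' (sg (f σ) (σ t)) * ι' (β (σ t)) := by
      rw [hτσ, (hβ t hR).2 σ, map_mul]
    show τ (rr (ι' t) P * ι' (β t)) = rr (ι' (σ t)) P * ι' (β (σ t))
    rw [map_mul, e1, e2, e3, e4]
    have e5 : ι' (sg (f σ) (σ t)) * ι' (sg (f σ) (σ t)) = 1 := by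
      rw [← map_mul, sg_sq, map_one]
    linear_combination (rr (ι' (σ t)) P * ι' (β (σ t))) * e5
  · intro t ht
    rw [hH, Polynomial.map_mul, eval_mul, hval t ht, Polynomial.map_sub, map_C, map_X, eval_sub,
      eval_C, eval_X, hx0]
    have e5 := hrr (ι' t) (Rt_map ι' ((mem_Z hZ t).1 ht))
    linear_combination (-(ι' (β t)) ^ 2) * e5

end Pool.Agent.N42.QM
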